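import Pool.Agent.K1H9.RP.Stm

set_option autoImplicit false

open Finset Matrix

namespace Pool.Agent.K1H50.RP

variable {ι : Type} [Fintype ι] [DecidableEq ι] {n : ℕ}

lemma exists_rel (w : ι → Fin n → ℝ) (T : Finset ι) (hT : n < T.card) :
    ∃ t : ι → ℝ, (∀ i, i ∉ T → t i = 0) ∧ ∑ i, t i • w i = 0 ∧ ∃ i, t i ≠ 0 := by
  have h1 : ¬ LinearIndependent ℝ (fun i : T => w i) := by
    intro h
    have h2 := h.fintype_card_le_finrank
    rw [Module.finrank_fin_fun, Fintype.card_coe] at h2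
    omega
  rw [Fintype.not_linearIndependent_iff] at h1
  obtain ⟨g, hg, i, hi⟩ := h1
  refine ⟨fun j => if h : j ∈ T then g ⟨j, h⟩ else 0, fun j hj => by simp [hj], ?_, i, by simp [hi]⟩
  rw [← hg, ← Finset.sum_subset (Finset.subset_univ T) (fun j _ hj => by simp [hj]),
    ← Finset.sum_coe_sort T]
  refine Finset.sum_congr rfl fun j _ => ?_
  simp

lemma dot_sum (w : ι → Fin n → ℝ) (p : Fin n → ℝ) (t : ι → ℝ) :
    p ⬝ᵥ (∑ i, t i • w i) = ∑ i, t i * (p ⬝ᵥ w i) := by
  rw [dotProduct_sum]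
  refine Finset.sum_congr rfl fun i _ => ?_
  rw [dotProduct_smul, smul_eq_mul]

lemma exists_dir (w : ι → Fin n → ℝ) (c : ι → ℝ) (hp : ∃ p : Fin n → ℝ, ∀ i, p ⬝ᵥ w i ≤ c i)
    (T : Finset ι) (hT : n < T.card) :
    ∃ t : ι → ℝ, (∀ i, i ∉ T → t i = 0) ∧ ∑ i, t i • w i = 0 ∧ ∑ i, c i * t i ≤ 0 ∧
      ∃ i, t i < 0 := by
  obtain ⟨t, h1, h2, h3⟩ := exists_rel w T hT
  -- make the cost nonpositive
  obtain ⟨s, s1, s2, s3, s4⟩ : ∃ s : ι → ℝ, (∀ i, i ∉ T → s i = 0) ∧ ∑ i, s i • w i = 0 ∧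
      (∃ i, s i ≠ 0) ∧ ∑ i, c i * s i ≤ 0 := by
    rcases le_total (∑ i, c i * t i) 0 with h | h
    · exact ⟨t, h1, h2, h3, h⟩
    · refine ⟨fun i => - t i, fun i hi => by simp [h1 i hi], ?_, ?_, ?_⟩
      · simp only [neg_smul, Finset.sum_neg_distrib, h2, neg_zero]
      · obtain ⟨i, hi⟩ := h3
        exact ⟨i, by simpa using hi⟩
      · simp only [mul_neg, Finset.sum_neg_distrib]
        linarith
  by_cases hneg : ∃ i, s i < 0
  · exact ⟨s, s1, s2, s4, hneg⟩
  · push Not at hneg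
    obtain ⟨p, hp⟩ := hp
    have h5 : 0 ≤ ∑ i, c i * s i := by
      have h6 := dot_sum w p s
      rw [s2, dotProduct_zero] at h6
      rw [h6]
      refine Finset.sum_le_sum fun i _ => ?_
      rw [mul_comm]
      exact mul_le_mul_of_nonneg_right (hp i) (hneg i)
    refine ⟨fun i => - s i, fun i hi => by simp [s1 i hi], ?_, ?_, ?_⟩
    · simp only [neg_smul, Finset.sum_neg_distrib, s2, neg_zero]
    · simp only [mul_neg, Finset.sum_neg_distrib]
      linarith
    · obtain ⟨i, hi⟩ := s3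
      exact ⟨i, by have := lt_of_le_of_ne (hneg i) (Ne.symm hi); simpa using this⟩

lemma reduce (w : ι → Fin n → ℝ) (v : Fin n → ℝ) (c : ι → ℝ)
    (hp : ∃ p : Fin n → ℝ, ∀ i, p ⬝ᵥ w i ≤ c i) :
    ∀ (m : ℕ) (y : ι → ℝ), (∀ i, 0 ≤ y i) → ∑ i, y i • w i = v →
      (univ.filter fun i => y i ≠ 0).card = m →
      ∃ y' : ι → ℝ, (∀ i, 0 ≤ y' i) ∧ ∑ i, y' i • w i = v ∧ ∑ i, c i * y' i ≤ ∑ i, c i * y i ∧
        (univ.filter fun i => y' i ≠ 0).card ≤ n := by
  intro m
  induction m using Nat.strong_induction_on with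
  | _ m ih =>
    intro y hy hyv hm
    by_cases hmn : m ≤ n
    · exact ⟨y, hy, hyv, le_rfl, hm ▸ hmn⟩
    push Not at hmn
    obtain ⟨t, t1, t2, t3, t4⟩ := exists_dir w c hp (univ.filter fun i => y i ≠ 0)
      (by rw [hm]; exact hmn)
    have hne : (univ.filter fun i => t i < 0).Nonempty := by
      obtain ⟨i, hi⟩ := t4
      exact ⟨i, by simpa using hi⟩
    obtain ⟨i0, hi0, hmin⟩ := Finset.exists_min_image _ (fun i => y i / (- t i)) hne
    rw [Finset.mem_filter] at hi0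
    have ht0 : 0 < - t i0 := by linarith [hi0.2]
    set e : ℝ := y i0 / (- t i0) with he
    have he0 : 0 ≤ e := div_nonneg (hy i0) ht0.le
    have hyi0 : y i0 ≠ 0 := by
      intro h
      have := t1 i0 (by simp [h])
      rw [this] at ht0
      simp at ht0
    have hy'0 : ∀ i, 0 ≤ y i + e * t i := by
      intro i
      rcases le_or_gt 0 (t i) with h | h
      · exact add_nonneg (hy i) (mul_nonneg he0 h)
      · have h1 := hmin i (by simpa using h)
        have h2 : 0 < - t i := by linarith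
        change e ≤ y i / (- t i) at h1
        rw [le_div_iff₀ h2] at h1
        linarith
    have hzero : y i0 + e * t i0 = 0 := by
      have hne' : t i0 ≠ 0 := ne_of_lt hi0.2
      rw [he, div_neg, neg_mul, div_mul_cancel₀ _ hne']
      ring
    have hsub : (univ.filter fun i => y i + e * t i ≠ 0) ⊂ (univ.filter fun i => y i ≠ 0) := by
      rw [Finset.ssubset_iff_of_subset]
      · exact ⟨i0, by simp [hyi0], by simp [hzero]⟩
      · intro i hi
        rw [Finset.mem_filter] at hi ⊢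
        refine ⟨mem_univ _, fun h => hi.2 ?_⟩
        rw [t1 i (by simp [h]), h]
        simp
    have hcard := Finset.card_lt_card hsub
    rw [hm] at hcard
    obtain ⟨y', a1, a2, a3, a4⟩ := ih _ hcard (fun i => y i + e * t i) hy'0 (by
      simp only [add_smul, Finset.sum_add_distrib, hyv, mul_smul]
      rw [← Finset.smul_sum, t2, smul_zero, add_zero]) rfl
    refine ⟨y', a1, a2, a3.trans ?_, a4⟩
    have : ∑ i, c i * (y i + e * t i) = ∑ i, c i * y i + e * ∑ i, c i * t i := by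
      rw [Finset.mul_sum, ← Finset.sum_add_distrib]
      refine Finset.sum_congr rfl fun i _ => by ring
    rw [this]
    have := mul_nonpos_of_nonneg_of_nonpos he0 t3
    linarith

/-- `S` is a primal basis with solution `y`. -/
def Prim (w : ι → Fin n → ℝ) (v : Fin n → ℝ) (S : Finset ι) (y : ι → ℝ) : Prop :=
  (∀ i ∈ S, 0 < y i) ∧ (∀ i, i ∉ S → y i = 0) ∧ ∑ i, y i • w i = v

lemma exists_prim (w : ι → Fin n → ℝ) (v : Fin n → ℝ) (c : ι → ℝ)
    (hspan : ∀ S : Finset ι, S.card < n → v ∉ Submodule.span ℝ (w '' (S : Set ι)))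
    (hp : ∃ p : Fin n → ℝ, ∀ i, p ⬝ᵥ w i ≤ c i) (y : ι → ℝ) (hy : ∀ i, 0 ≤ y i)
    (hyv : ∑ i, y i • w i = v) :
    ∃ (S : Finset ι) (y' : ι → ℝ), S.card = n ∧ Prim w v S y' ∧
      ∑ i, c i * y' i ≤ ∑ i, c i * y i := by
  obtain ⟨y', a1, a2, a3, a4⟩ := reduce w v c hp _ y hy hyv rfl
  refine ⟨univ.filter fun i => y' i ≠ 0, y', ?_, ⟨?_, ?_, a2⟩, a3⟩
  · refine le_antisymm a4 ?_
    by_contra hlt
    push Not at hlt
    refine hspan _ hlt ?_
    rw [← a2, ← Finset.sum_filter_of_ne (p := fun i => y' i ≠ 0)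
      (fun i _ h1 h2 => h1 (by rw [h2, zero_smul]))]
    refine Submodule.sum_mem _ fun i hi => Submodule.smul_mem _ _ (Submodule.subset_span ?_)
    exact ⟨i, by simpa using hi, rfl⟩
  · intro i hi
    rw [Finset.mem_filter] at hi
    exact lt_of_le_of_ne (a1 i) (Ne.symm hi.2)
  · intro i hi
    by_contra h
    exact hi (by simp [h])

/-- solving for the dual variable -/
lemma exists_dual (w : ι → Fin n → ℝ) (c : ι → ℝ) (S : Finset ι) (hS : S.card = n)
    (hli : LinearIndependent ℝ (fun i : S => w i)) :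
    ∃ p : Fin n → ℝ, ∀ i ∈ S, p ⬝ᵥ w i = c i := by
  classical
  have hcard : Fintype.card S = Module.finrank ℝ (Fin n → ℝ) := by
    rw [Fintype.card_coe, hS, Module.finrank_fin_fun]
  rcases isEmpty_or_nonempty S with hE | hE
  · exact ⟨0, fun i hi => (hE.false ⟨i, hi⟩).elim⟩
  set B := basisOfLinearIndependentOfCardEqFinrank hli hcard with hB
  let f : (Fin n → ℝ) →ₗ[ℝ] ℝ := B.constr ℝ (fun i : S => c i)
  refine ⟨fun j => f (Pi.single j 1), fun i hi => ?_⟩
  have h1 : f (w i) = c i := by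
    have h2 := B.constr_basis ℝ (fun i : S => c i) ⟨i, hi⟩
    rw [hB, coe_basisOfLinearIndependentOfCardEqFinrank] at h2
    exact h2
  rw [← h1]
  rw [LinearMap.pi_apply_eq_sum_univ f (w i)]
  simp only [dotProduct, smul_eq_mul]
  refine Finset.sum_congr rfl fun j _ => ?_
  rw [mul_comm]
  congr 2
  funext k
  simp [Pi.single_apply, eq_comm]

/-- a basis expresses every vector -/
lemma exists_expr (w : ι → Fin n → ℝ) (S : Finset ι) (hS : S.card = n)
    (hli : LinearIndependent ℝ (fun i : S => w i)) (x : Fin n → ℝ) :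
    ∃ t : ι → ℝ, (∀ i, i ∉ S → t i = 0) ∧ ∑ i, t i • w i = x := by
  classical
  have hcard : Fintype.card S = Module.finrank ℝ (Fin n → ℝ) := by
    rw [Fintype.card_coe, hS, Module.finrank_fin_fun]
  rcases isEmpty_or_nonempty S with hE | hE
  · have hn : n = 0 := by
      rw [← hS, Finset.card_eq_zero]
      by_contra h
      obtain ⟨i, hi⟩ := Finset.nonempty_iff_ne_empty.2 h
      exact hE.false ⟨i, hi⟩
    subst hn
    exact ⟨0, fun _ _ => rfl, Subsingleton.elim _ _⟩
  set B := basisOfLinearIndependentOfCardEqFinrank hli hcard with hB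
  refine ⟨fun j => if h : j ∈ S then B.repr x ⟨j, h⟩ else 0, fun j hj => by simp [hj], ?_⟩
  conv_rhs => rw [← B.sum_repr x]
  rw [← Finset.sum_subset (Finset.subset_univ S) (fun j _ hj => by simp [hj]),
    ← Finset.sum_coe_sort S]
  refine Finset.sum_congr rfl fun j _ => ?_
  rw [hB, coe_basisOfLinearIndependentOfCardEqFinrank]
  simp

theorem t_LP : Pool.Agent.K1H9.RP.S_LP := by
  intro ι _ _ n w v c _ hli hspan hneq hp hy
  classical
  -- the finite set of primal bases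
  have hex : ∃ S : Finset ι, S.card = n ∧ ∃ y, Prim w v S y := by
    obtain ⟨y, h0, h1⟩ := hy
    obtain ⟨S, y', hS, hP, -⟩ := exists_prim w v c hspan hp y h0 h1
    exact ⟨S, hS, y', hP⟩
  -- choose one of least cost
  let sol : Finset ι → ι → ℝ := fun S => if h : ∃ y, Prim w v S y then h.choose else 0
  have hsol : ∀ S, (∃ y, Prim w v S y) → Prim w v S (sol S) := by
    intro S h
    simp only [sol, dif_pos h]
    exact h.choose_spec
  have huniq : ∀ S y, S.card = n → Prim w v S y → y = sol S := by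
    intro S y hS h
    have h' := hsol S ⟨y, h⟩
    funext i
    by_cases hi : i ∈ S
    · have h1 : ∑ j : S, (y j - sol S j) • w j = 0 := by
        rw [Finset.sum_coe_sort S (fun j => (y j - sol S j) • w j)]
        rw [Finset.sum_subset (Finset.subset_univ S)
          (fun j _ hj => by rw [h.2.1 j hj, h'.2.1 j hj, sub_zero, zero_smul])]
        simp only [sub_smul, Finset.sum_sub_distrib, h.2.2, h'.2.2, sub_self]
      have h2 := Fintype.linearIndependent_iff.1 (hli S hS) (fun j => y j - sol S j) h1 ⟨i, hi⟩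
      have h3 : y i - sol S i = 0 := h2
      linarith
    · rw [h.2.1 i hi, h'.2.1 i hi]
  set P : Finset (Finset ι) := univ.filter fun S => S.card = n ∧ ∃ y, Prim w v S y with hP
  have hPne : P.Nonempty := by
    obtain ⟨S, hS⟩ := hex
    exact ⟨S, by simpa [hP] using hS⟩
  obtain ⟨S, hSP, hmin⟩ := Finset.exists_min_image P (fun S => ∑ i, c i * sol S i) hPne
  have hS : S.card = n ∧ ∃ y, Prim w v S y := by simpa [hP] using hSP
  have hy0 := hsol S hS.2
  obtain ⟨p, hpS⟩ := exists_dual w c S hS.1 (hli S hS.1)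
  -- dual feasibility
  have hdual : ∀ i, i ∉ S → p ⬝ᵥ w i < c i := by
    intro k hk
    refine lt_of_le_of_ne ?_ (hneq S hS.1 p hpS k hk)
    by_contra hlt
    push Not at hlt
    obtain ⟨t, t1, t2⟩ := exists_expr w S hS.1 (hli S hS.1) (w k)
    -- direction
    obtain ⟨δ, hδd⟩ : ∃ δ : ι → ℝ, ∀ i, δ i = (if i = k then (1 : ℝ) else 0) - t i :=
      ⟨_, fun _ => rfl⟩
    have hδ : ∀ i, i ∉ S → i ≠ k → δ i = 0 := by
      intro i hi hik
      rw [hδd, t1 i hi, if_neg hik, sub_zero]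
    obtain ⟨e, he, hpos⟩ : ∃ e : ℝ, 0 < e ∧ ∀ i ∈ S, 0 ≤ sol S i + e * δ i := by
      have h1 : ∀ i ∈ S, ∀ᶠ e : ℝ in nhdsWithin 0 (Set.Ioi 0),
          0 ≤ sol S i + e * δ i := by
        intro i hi
        have h2 : Filter.Tendsto (fun e : ℝ => sol S i + e * δ i)
            (nhdsWithin 0 (Set.Ioi 0)) (nhds (sol S i + 0 * δ i)) :=
          ((continuous_const.add (continuous_id.mul continuous_const)).tendsto _).mono_left
            nhdsWithin_le_nhds
        rw [zero_mul, add_zero] at h2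
        exact (h2.eventually (lt_mem_nhds (hy0.1 i hi))).mono fun e he => he.le
      have h3 := ((Filter.eventually_all_finset S).2 h1).and self_mem_nhdsWithin
      obtain ⟨e, h4, h5⟩ := h3.exists
      exact ⟨e, h5, h4⟩
    have hfe : ∀ i, 0 ≤ sol S i + e * δ i := by
      intro i
      by_cases hi : i ∈ S
      · exact hpos i hi
      · by_cases hik : i = k
        · subst hik
          rw [hy0.2.1 i hi, hδd, t1 i hi, if_pos rfl]
          simp [he.le]
        · rw [hδ i hi hik, hy0.2.1 i hi]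
          simp
    have hsum : ∑ i, δ i • w i = 0 := by
      simp only [hδd, sub_smul, Finset.sum_sub_distrib, t2, ite_smul, one_smul, zero_smul,
        Finset.sum_ite_eq', Finset.mem_univ, if_true, sub_self]
    obtain ⟨S', y', hS', hP', hc'⟩ := exists_prim w v c hspan hp
      (fun i => sol S i + e * δ i) hfe (by
        simp only [add_smul, Finset.sum_add_distrib, hy0.2.2, mul_smul]
        rw [← Finset.smul_sum, hsum, smul_zero, add_zero])
    have h6 := hmin S' (by simpa [hP] using ⟨hS', y', hP'⟩)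
    rw [← huniq S' y' hS' hP'] at h6
    have h7 : ∑ i, c i * (sol S i + e * δ i) =
        ∑ i, c i * sol S i + e * (c k - p ⬝ᵥ w k) := by
      have h8 : ∑ i, c i * δ i = c k - p ⬝ᵥ w k := by
        simp only [hδd, mul_sub, Finset.sum_sub_distrib]
        congr 1
        · simp
        · rw [← t2, dot_sum]
          refine Finset.sum_congr rfl fun i _ => ?_
          by_cases hi : i ∈ S
          · rw [hpS i hi, mul_comm]
          · rw [t1 i hi]; simp
      rw [← h8, Finset.mul_sum, ← Finset.sum_add_distrib]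
      refine Finset.sum_congr rfl fun i _ => by ring
    rw [h7] at hc'
    have h9 : e * (c k - p ⬝ᵥ w k) < 0 := mul_neg_of_pos_of_neg he (by linarith)
    have h10 : ∑ i, c i * sol S i ≤ ∑ i, c i * y' i := h6
    linarith
  refine ⟨S, ⟨hS.1, ⟨sol S, hy0⟩, ⟨p, hpS, hdual⟩⟩, ?_⟩
  rintro S' ⟨hS', ⟨y', hy'⟩, ⟨p', hp1, hp2⟩⟩
  have hy'0 : ∀ i, 0 ≤ y' i := fun i => by
    by_cases hi : i ∈ S'
    · exact (hy'.1 i hi).le
    · rw [hy'.2.1 i hi]
  have hs0 : ∀ i, 0 ≤ sol S i := fun i => by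
    by_cases hi : i ∈ S
    · exact (hy0.1 i hi).le
    · rw [hy0.2.1 i hi]
  -- complementary slackness
  have k1 : ∑ i, sol S i * (c i - p ⬝ᵥ w i) = 0 := by
    refine Finset.sum_eq_zero fun i _ => ?_
    by_cases hi : i ∈ S
    · rw [hpS i hi, sub_self, mul_zero]
    · rw [hy0.2.1 i hi, zero_mul]
  have k2 : ∑ i, y' i * (c i - p' ⬝ᵥ w i) = 0 := by
    refine Finset.sum_eq_zero fun i _ => ?_
    by_cases hi : i ∈ S'
    · rw [hp1 i hi, sub_self, mul_zero]
    · rw [hy'.2.1 i hi, zero_mul]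
  have d1 : ∀ i, 0 ≤ c i - p ⬝ᵥ w i := fun i => by
    by_cases hi : i ∈ S
    · rw [hpS i hi, sub_self]
    · linarith [hdual i hi]
  have d2 : ∀ i, 0 ≤ c i - p' ⬝ᵥ w i := fun i => by
    by_cases hi : i ∈ S'
    · rw [hp1 i hi, sub_self]
    · linarith [hp2 i hi]
  have e1 : ∑ i, y' i * (p ⬝ᵥ w i) = p ⬝ᵥ v := by rw [← hy'.2.2, dot_sum]
  have e2 : ∑ i, y' i * (p' ⬝ᵥ w i) = p' ⬝ᵥ v := by rw [← hy'.2.2, dot_sum]
  have e3 : ∑ i, sol S i * (p ⬝ᵥ w i) = p ⬝ᵥ v := by
    conv_rhs => rw [← hy0.2.2, dot_sum]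
  have e4 : ∑ i, sol S i * (p' ⬝ᵥ w i) = p' ⬝ᵥ v := by
    conv_rhs => rw [← hy0.2.2, dot_sum]
  have k3 : ∑ i, y' i * (c i - p ⬝ᵥ w i) + ∑ i, sol S i * (c i - p' ⬝ᵥ w i) = 0 := by
    simp only [mul_sub, Finset.sum_sub_distrib] at k1 k2 ⊢
    rw [e3] at k1
    rw [e2] at k2
    rw [e1, e4]
    linarith
  have k4 : 0 ≤ ∑ i, sol S i * (c i - p' ⬝ᵥ w i) :=
    Finset.sum_nonneg fun i _ => mul_nonneg (hs0 i) (d2 i)
  have k5 : ∑ i, y' i * (c i - p ⬝ᵥ w i) = 0 :=
    le_antisymm (by linarith) (Finset.sum_nonneg fun i _ => mul_nonneg (hy'0 i) (d1 i))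
  rw [Finset.sum_eq_zero_iff_of_nonneg fun i _ => mul_nonneg (hy'0 i) (d1 i)] at k5
  refine Finset.eq_of_subset_of_card_le ?_ (by rw [hS', hS.1])
  intro i hi
  by_contra hiS
  have h1 := k5 i (mem_univ i)
  have h2 := hy'.1 i hi
  have h3 := hdual i hiS
  have h4 : 0 < y' i * (c i - p ⬝ᵥ w i) := mul_pos h2 (by linarith)
  linarith

end Pool.Agent.K1H50.RP
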