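import Pool.Agent.K1H9.RP.Stm

set_option autoImplicit false

open MeasureTheory ProbabilityTheory Matrix
open scoped BigOperators ENNReal

namespace Pool.Agent.K1H50.RP

open Pool.Agent.K1H9.RP

lemma card_filter_left {a b : ℕ} (S : Finset (Fin a ⊕ Fin b)) :
    (S.filter fun i => i.isLeft).card = S.toLeft.card := by
  have h : (S.filter fun i => i.isLeft) = S.toLeft.map Function.Embedding.inl := by
    ext x
    rcases x with x | x <;> simp
  rw [h, Finset.card_map]

lemma card_fiber (a b n j : ℕ) (hj : j ≤ n) :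
    (((Finset.univ : Finset (Fin a ⊕ Fin b)).powersetCard n).filter
      (fun S => (S.filter fun i => i.isLeft).card = j)).card = a.choose j * b.choose (n - j) := by
  have h1 : ((Finset.univ : Finset (Fin a)).powersetCard j ×ˢ
      (Finset.univ : Finset (Fin b)).powersetCard (n - j)).card = a.choose j * b.choose (n - j) := by
    rw [Finset.card_product, Finset.card_powersetCard, Finset.card_powersetCard, Finset.card_univ,
      Finset.card_univ, Fintype.card_fin, Fintype.card_fin]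
  rw [← h1]
  refine Finset.card_nbij' (fun S => (S.toLeft, S.toRight)) (fun q => q.1.disjSum q.2) ?_ ?_ ?_ ?_
  · intro S hS
    simp only [Finset.coe_filter, Finset.mem_powersetCard_univ, Set.mem_ofPred_eq] at hS
    rw [card_filter_left] at hS
    have h2 := Finset.card_toLeft_add_card_toRight (u := S)
    simp only [Finset.coe_product, Set.mem_prod, Finset.mem_coe, Finset.mem_powersetCard_univ]
    exact ⟨hS.2, by omega⟩
  · rintro ⟨A, B⟩ h
    simp only [Finset.coe_product, Set.mem_prod, Finset.mem_coe, Finset.mem_powersetCard_univ] at h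
    simp only [Finset.coe_filter, Finset.mem_powersetCard_univ, Set.mem_ofPred_eq]
    rw [card_filter_left, Finset.toLeft_disjSum, Finset.card_disjSum]
    exact ⟨by omega, h.1⟩
  · intro S _
    exact Finset.toLeft_disjSum_toRight
  · rintro ⟨A, B⟩ _
    simp

lemma sum_group (a b n : ℕ) (g : ℕ → ℝ) :
    ∑ S ∈ (Finset.univ : Finset (Fin a ⊕ Fin b)).powersetCard n,
      g (S.filter fun i => i.isLeft).card =
    ∑ j ∈ Finset.range (n + 1), ((a.choose j : ℝ) * ((b.choose (n - j) : ℕ) : ℝ)) * g j := by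
  rw [← Finset.sum_fiberwise_of_maps_to (t := Finset.range (n + 1))
    (g := fun S : Finset (Fin a ⊕ Fin b) => (S.filter fun i => i.isLeft).card)]
  · refine Finset.sum_congr rfl fun j hj => ?_
    rw [Finset.mem_range, Nat.lt_succ_iff] at hj
    rw [Finset.sum_congr rfl (g := fun _ => g j)
      (fun S hS => by rw [(Finset.mem_filter.1 hS).2]), Finset.sum_const, card_fiber a b n j hj,
      nsmul_eq_mul, Nat.cast_mul]
  · intro S hS
    rw [Finset.mem_powersetCard_univ] at hS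
    rw [Finset.mem_range, Nat.lt_succ_iff, ← hS]
    exact Finset.card_filter_le _ _

instance : IsProbabilityMeasure G1 := by unfold G1; infer_instance
instance (κ : Type) [Fintype κ] : IsProbabilityMeasure (gv κ) := by unfold gv; infer_instance
instance (κ : Type) [Fintype κ] (d : ℕ) : IsProbabilityMeasure (gp κ d) := by
  unfold gp; infer_instance
instance (d a b : ℕ) : IsProbabilityMeasure (mxz d a b) := by unfold mxz; infer_instance
instance (d a b : ℕ) : IsProbabilityMeasure (mxzh d a b) := by unfold mxzh; infer_instance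

lemma real_lift (d a b : ℕ) (A : Set ((Fin a ⊕ Fin b → Fin d → ℝ) × (Fin d → ℝ))) :
    (mxz d a b).real A = (mxzh d a b).real {q | q.1 ∈ A} := by
  have h : {q : ((Fin a ⊕ Fin b → Fin d → ℝ) × (Fin d → ℝ)) × (Fin a ⊕ Fin b → ℝ) | q.1 ∈ A} =
      A ×ˢ Set.univ := by
    ext q
    simp
  rw [h, mxzh, measureReal_prod_prod]
  simp

lemma real_eq_integral {α : Type} [MeasurableSpace α] (μ : Measure α) [IsFiniteMeasure μ]
    (A : Set α) (hA : NullMeasurableSet A μ) :
    μ.real A = ∫ q, Set.indicator A (fun _ => (1 : ℝ)) q ∂μ := by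
  rw [integral_indicator₀ hA]
  simp

theorem t_SUM' (hP : ∀ d a b : ℕ, MeasurableSet
      {q : (Fin a ⊕ Fin b → Fin d → ℝ) × (Fin d → ℝ) | RadP q.1 q.2})
    (hM : ∀ d a b : ℕ, MeasurableSet
      {q : (Fin a ⊕ Fin b → Fin d → ℝ) × (Fin d → ℝ) | RadM q.1 q.2})
    (hG : S_G) (hAS : S_AS) (hTS : S_TS) : S_SUM := by
  intro d a b D hab
  have hint : ∀ A : Set (((Fin a ⊕ Fin b → Fin d → ℝ) × (Fin d → ℝ)) × (Fin a ⊕ Fin b → ℝ)),
      NullMeasurableSet A (mxzh d a b) →
      Integrable (Set.indicator A (fun _ => (1 : ℝ))) (mxzh d a b) := fun A hA =>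
    (integrable_const (1 : ℝ)).indicator₀ hA
  have hPm : MeasurableSet {q : ((Fin a ⊕ Fin b → Fin d → ℝ) × (Fin d → ℝ)) ×
      (Fin a ⊕ Fin b → ℝ) | q.1 ∈ {q : (Fin a ⊕ Fin b → Fin d → ℝ) × (Fin d → ℝ) |
        RadP q.1 q.2}} := measurable_fst (hP d a b)
  have hMm : MeasurableSet {q : ((Fin a ⊕ Fin b → Fin d → ℝ) × (Fin d → ℝ)) ×
      (Fin a ⊕ Fin b → ℝ) | q.1 ∈ {q : (Fin a ⊕ Fin b → Fin d → ℝ) × (Fin d → ℝ) |
        RadM q.1 q.2}} := measurable_fst (hM d a b)
  rw [PPp, PPm, real_lift, real_lift, real_eq_integral _ _ hPm.nullMeasurableSet,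
    real_eq_integral _ _ hMm.nullMeasurableSet,
    ← integral_sub (hint _ hPm.nullMeasurableSet) (hint _ hMm.nullMeasurableSet)]
  have hae : (fun q : ((Fin a ⊕ Fin b → Fin d → ℝ) × (Fin d → ℝ)) × (Fin a ⊕ Fin b → ℝ) =>
      Set.indicator {q : ((Fin a ⊕ Fin b → Fin d → ℝ) × (Fin d → ℝ)) ×
        (Fin a ⊕ Fin b → ℝ) | q.1 ∈ {q : (Fin a ⊕ Fin b → Fin d → ℝ) × (Fin d → ℝ) |
        RadP q.1 q.2}} (fun _ => (1 : ℝ)) q -
      Set.indicator {q : ((Fin a ⊕ Fin b → Fin d → ℝ) × (Fin d → ℝ)) ×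
        (Fin a ⊕ Fin b → ℝ) | q.1 ∈ {q : (Fin a ⊕ Fin b → Fin d → ℝ) × (Fin d → ℝ) |
        RadM q.1 q.2}} (fun _ => (1 : ℝ)) q) =ᵐ[mxzh d a b]
      fun q => ∑ S ∈ (Finset.univ : Finset (Fin a ⊕ Fin b)).powersetCard (d + 1),
      (Set.indicator {q : ((Fin a ⊕ Fin b → Fin d → ℝ) × (Fin d → ℝ)) × (Fin a ⊕ Fin b → ℝ) |
          Pos 1 S q.1.1 q.1.2 ∧ Dual S q.1.1 q.2} (fun _ => (1 : ℝ)) q -
        Set.indicator {q : ((Fin a ⊕ Fin b → Fin d → ℝ) × (Fin d → ℝ)) × (Fin a ⊕ Fin b → ℝ) |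
          Pos (-1) S q.1.1 q.1.2 ∧ Dual S q.1.1 q.2} (fun _ => (1 : ℝ)) q) := by
    filter_upwards [hAS d a b] with q hq
    exact hG d a b (by omega) q.1.1 q.1.2 q.2 hq
  rw [integral_congr_ae hae]
  have hS : ∀ S ∈ (Finset.univ : Finset (Fin a ⊕ Fin b)).powersetCard (d + 1), S.card = d + 1 :=
    fun S hS => (Finset.mem_powersetCard_univ.1 hS)
  rw [integral_finsetSum]
  swap
  · intro S h
    exact (hint _ (hTS d a b D hab S (hS S h)).1).sub (hint _ (hTS d a b D hab S (hS S h)).2.1)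
  rw [← sum_group a b (d + 1) (fun j => TT d D j (a - j) - TT d D (d + 1 - j) (a - j))]
  refine Finset.sum_congr rfl fun S h => ?_
  obtain ⟨h1, h2, h3, h4⟩ := hTS d a b D hab S (hS S h)
  rw [integral_sub (hint _ h1) (hint _ h2), ← real_eq_integral _ _ h1, ← real_eq_integral _ _ h2,
    h3, h4]

end Pool.Agent.K1H50.RP
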